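import Pool.Agent.Run7.h131.AD.Iface

/-!
# Project AD (helper131), piece RNG (helper915): the local rings `O` and `O_p`
-/

set_option autoImplicit false

namespace Run7.h915.AD

open Run7.h131.AD

theorem ev_aeval {s : ℕ} (w : Fin s → PS) (P : MvPolynomial (Fin s) ℚ) :
    ev (MvPolynomial.aeval w P) = MvPolynomial.eval (c0 w) P := by
  unfold ev
  induction P using MvPolynomial.induction_on with
  | C a =>
    rw [MvPolynomial.aeval_C, MvPolynomial.eval_C]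
    exact PowerSeries.constantCoeff_C a
  | add p q hp hq => rw [map_add, map_add, map_add, hp, hq]
  | mul_X p i hp =>
    rw [map_mul, map_mul, map_mul, hp, MvPolynomial.aeval_X, MvPolynomial.eval_X]
    rfl

/-- the localisation at the polynomials in `A` with value in `U` -/
def Loc {s : ℕ} (A : Subring (MvPolynomial (Fin s) ℚ)) (U : ℚ → Prop) (w : Fin s → PS) : Set PS :=
  {g | ∃ P Q : MvPolynomial (Fin s) ℚ, P ∈ A ∧ Q ∈ A ∧ U (MvPolynomial.eval (c0 w) Q) ∧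
    MvPolynomial.aeval w Q * g = MvPolynomial.aeval w P}

/-- it is a ring -/
def LocR {s : ℕ} (A : Subring (MvPolynomial (Fin s) ℚ)) (U : ℚ → Prop) (w : Fin s → PS)
    (h1 : U 1) (h2 : ∀ x y, U x → U y → U (x * y)) : Subring PS where
  carrier := Loc A U w
  one_mem' := ⟨1, 1, A.one_mem, A.one_mem, by rw [map_one]; exact h1, by rw [map_one, one_mul]⟩
  zero_mem' := ⟨0, 1, A.zero_mem, A.one_mem, by rw [map_one]; exact h1, by rw [map_one, map_zero, mul_zero]⟩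
  mul_mem' := by
    rintro g h ⟨P, Q, hP, hQ, hU, he⟩ ⟨P', Q', hP', hQ', hU', he'⟩
    refine ⟨P * P', Q * Q', A.mul_mem hP hP', A.mul_mem hQ hQ', ?_, ?_⟩
    · rw [map_mul]
      exact h2 _ _ hU hU'
    · rw [map_mul, map_mul, ← he, ← he']
      ring
  add_mem' := by
    rintro g h ⟨P, Q, hP, hQ, hU, he⟩ ⟨P', Q', hP', hQ', hU', he'⟩
    refine ⟨Q' * P + Q * P', Q * Q', A.add_mem (A.mul_mem hQ' hP) (A.mul_mem hQ hP'),
      A.mul_mem hQ hQ', ?_, ?_⟩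
    · rw [map_mul]
      exact h2 _ _ hU hU'
    · rw [map_mul, map_add, map_mul, map_mul, ← he, ← he']
      ring
  neg_mem' := by
    rintro g ⟨P, Q, hP, hQ, hU, he⟩
    refine ⟨-P, Q, A.neg_mem hP, hQ, hU, ?_⟩
    rw [map_neg, ← he]
    ring

theorem loc_inv {s : ℕ} {A : Subring (MvPolynomial (Fin s) ℚ)} {U : ℚ → Prop} {w : Fin s → PS}
    (h2 : ∀ x y, U x → U y → U (x * y)) (h3 : ∀ x, U x → x ≠ 0) {g : PS} (hg : g ∈ Loc A U w)
    (hU : U (ev g)) : g⁻¹ ∈ Loc A U w := by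
  obtain ⟨P, Q, hP, hQ, hU', he⟩ := hg
  refine ⟨Q, P, hQ, hP, ?_, ?_⟩
  · rw [← ev_aeval, ← he]
    unfold ev
    rw [map_mul]
    refine h2 _ _ ?_ hU
    have := ev_aeval w Q
    unfold ev at this
    rw [this]
    exact hU'
  · rw [← he, mul_assoc, PowerSeries.mul_inv_cancel g (h3 _ hU), mul_one]

theorem OQ_eq {s : ℕ} (w : Fin s → PS) : OQ w = Loc ⊤ (fun x => x ≠ 0) w := by
  ext g
  constructor
  · rintro ⟨P, Q, h1, h2⟩
    exact ⟨P, Q, trivial, trivial, h1, h2⟩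
  · rintro ⟨P, Q, -, -, h1, h2⟩
    exact ⟨P, Q, h1, h2⟩

theorem OP_eq (p : ℕ) {s : ℕ} (w : Fin s → PS) (A : Subring (MvPolynomial (Fin s) ℚ))
    (hA : (A : Set (MvPolynomial (Fin s) ℚ)) = {P | PI p P}) : OP p w = Loc A (ZU p) w := by
  have hA' : ∀ P, P ∈ A ↔ PI p P := fun P => by
    rw [← SetLike.mem_coe, hA]
    rfl
  ext g
  constructor
  · rintro ⟨P, Q, h1, h2, h3, h4⟩
    exact ⟨P, Q, (hA' P).2 h1, (hA' Q).2 h2, h3, h4⟩
  · rintro ⟨P, Q, h1, h2, h3, h4⟩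
    exact ⟨P, Q, (hA' P).1 h1, (hA' Q).1 h2, h3, h4⟩

theorem t_RNG (hZ : S_ZZZ) : S_RNG := by
  obtain ⟨z1, -, -, -, z5, -, -, z8⟩ := hZ
  constructor
  · intro s w
    have h2 : ∀ x y : ℚ, x ≠ 0 → y ≠ 0 → x * y ≠ 0 := fun x y hx hy => mul_ne_zero hx hy
    refine ⟨LocR ⊤ (fun x => x ≠ 0) w one_ne_zero h2, (OQ_eq w).symm, ?_, ?_, ?_⟩
    · intro x
      refine ⟨MvPolynomial.C x, 1, trivial, trivial, by rw [map_one]; exact one_ne_zero, ?_⟩
      rw [map_one, one_mul, MvPolynomial.aeval_C]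
      rfl
    · intro i
      refine ⟨MvPolynomial.X i, 1, trivial, trivial, by rw [map_one]; exact one_ne_zero, ?_⟩
      rw [map_one, one_mul, MvPolynomial.aeval_X]
    · intro g hg h
      exact loc_inv (U := fun x => x ≠ 0) h2 (fun _ h => h) hg h
  · intro p s w hp hw
    obtain ⟨A, hA, hAC, hAX⟩ := z5 p (Fin s) hp
    obtain ⟨⟨Z, hZ⟩, -, -, -⟩ := z1 p hp
    have hZ' : ∀ x, x ∈ Z ↔ ZI p x := fun x => by
      rw [← SetLike.mem_coe, hZ]
      rfl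
    have hA' : ∀ P, P ∈ A ↔ PI p P := fun P => by
      rw [← SetLike.mem_coe, hA]
      rfl
    have h1 : ZU p 1 := ⟨one_ne_zero, (hZ' 1).1 Z.one_mem, by rw [inv_one]; exact (hZ' 1).1 Z.one_mem⟩
    have h2 : ∀ x y, ZU p x → ZU p y → ZU p (x * y) := by
      rintro x y ⟨a1, a2, a3⟩ ⟨b1, b2, b3⟩
      refine ⟨mul_ne_zero a1 b1, (hZ' _).1 (Z.mul_mem ((hZ' _).2 a2) ((hZ' _).2 b2)), ?_⟩
      rw [mul_inv]
      exact (hZ' _).1 (Z.mul_mem ((hZ' _).2 a3) ((hZ' _).2 b3))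
    refine ⟨LocR A (ZU p) w h1 h2, (OP_eq p w A hA).symm, ?_, ?_, ?_, ?_, ?_⟩
    · intro x hx
      refine ⟨MvPolynomial.C x, 1, hAC x hx, A.one_mem, by rw [map_one]; exact h1, ?_⟩
      rw [map_one, one_mul, MvPolynomial.aeval_C]
      rfl
    · intro i
      refine ⟨MvPolynomial.X i, 1, hAX i, A.one_mem, by rw [map_one]; exact h1, ?_⟩
      rw [map_one, one_mul, MvPolynomial.aeval_X]
    · rintro g ⟨P, Q, hP, hQ, hU, he⟩
      have e1 : MvPolynomial.eval (c0 w) Q * ev g = MvPolynomial.eval (c0 w) P := by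
        rw [← ev_aeval, ← ev_aeval, ← he]
        unfold ev
        rw [map_mul]
      have e2 : ev g = (MvPolynomial.eval (c0 w) Q)⁻¹ * MvPolynomial.eval (c0 w) P := by
        rw [← e1, ← mul_assoc, inv_mul_cancel₀ hU.1, one_mul]
      rw [e2]
      exact (hZ' _).1 (Z.mul_mem ((hZ' _).2 hU.2.2)
        ((hZ' _).2 (z8 p (Fin s) P (c0 w) hp ((hA' P).1 hP) hw)))
    · rintro g ⟨P, Q, hP, hQ, hU, he⟩
      exact ⟨P, Q, hU.1, he⟩
    · intro g hg h
      exact loc_inv h2 (fun x hx => hx.1) hg h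

end Run7.h915.AD
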