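import Pool.Agent.Run7.h915.AD.RNG

/-!
# Project AD (helper131), piece TB (helper915): tangent vectors are point derivations
-/

set_option autoImplicit false

namespace Run7.h915.AD

open Run7.h131.AD

/-- the derivative of the polynomial `P` in the direction `τ` at `w(0)` -/
noncomputable def dt {s : ℕ} (w : Fin s → PS) (τ : Fin s → ℚ) (P : MvPolynomial (Fin s) ℚ) : ℚ :=
  ∑ j, τ j * MvPolynomial.eval (c0 w) (MvPolynomial.pderiv j P)

theorem dt_add {s : ℕ} (w : Fin s → PS) (τ : Fin s → ℚ) (P Q : MvPolynomial (Fin s) ℚ) :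
    dt w τ (P + Q) = dt w τ P + dt w τ Q := by
  unfold dt
  rw [← Finset.sum_add_distrib]
  refine Finset.sum_congr rfl fun j _ => ?_
  rw [map_add, map_add, mul_add]

theorem dt_sub {s : ℕ} (w : Fin s → PS) (τ : Fin s → ℚ) (P Q : MvPolynomial (Fin s) ℚ) :
    dt w τ (P - Q) = dt w τ P - dt w τ Q := by
  unfold dt
  rw [← Finset.sum_sub_distrib]
  refine Finset.sum_congr rfl fun j _ => ?_
  rw [map_sub, map_sub, mul_sub]

theorem dt_mul {s : ℕ} (w : Fin s → PS) (τ : Fin s → ℚ) (P Q : MvPolynomial (Fin s) ℚ) :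
    dt w τ (P * Q) = MvPolynomial.eval (c0 w) P * dt w τ Q + MvPolynomial.eval (c0 w) Q * dt w τ P := by
  unfold dt
  rw [Finset.mul_sum, Finset.mul_sum, ← Finset.sum_add_distrib]
  refine Finset.sum_congr rfl fun j _ => ?_
  rw [MvPolynomial.pderiv_mul, map_add, map_mul, map_mul]
  ring

theorem dt_C {s : ℕ} (w : Fin s → PS) (τ : Fin s → ℚ) (x : ℚ) : dt w τ (MvPolynomial.C x) = 0 := by
  unfold dt
  refine Finset.sum_eq_zero fun j _ => ?_
  rw [MvPolynomial.pderiv_C, map_zero, mul_zero]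

theorem dt_one {s : ℕ} (w : Fin s → PS) (τ : Fin s → ℚ) : dt w τ 1 = 0 := by
  rw [← MvPolynomial.C_1]
  exact dt_C w τ 1

theorem dt_X {s : ℕ} (w : Fin s → PS) (τ : Fin s → ℚ) (i : Fin s) : dt w τ (MvPolynomial.X i) = τ i := by
  classical
  unfold dt
  rw [Finset.sum_eq_single i]
  · rw [MvPolynomial.pderiv_X_self, map_one, mul_one]
  · intro j _ hj
    rw [MvPolynomial.pderiv_X_of_ne hj.symm, map_zero, mul_zero]
  · intro h
    exact absurd (Finset.mem_univ i) h

open Classical in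
/-- the point derivation -/
noncomputable def dd {s : ℕ} (w : Fin s → PS) (τ : Fin s → ℚ) (g : PS) : ℚ :=
  if h : ∃ P Q : MvPolynomial (Fin s) ℚ, MvPolynomial.eval (c0 w) Q ≠ 0 ∧
    MvPolynomial.aeval w Q * g = MvPolynomial.aeval w P then
    (dt w τ h.choose - ev g * dt w τ h.choose_spec.choose) / MvPolynomial.eval (c0 w) h.choose_spec.choose
  else 0

theorem ev_rep {s : ℕ} {w : Fin s → PS} {g : PS} {P Q : MvPolynomial (Fin s) ℚ}
    (h : MvPolynomial.aeval w Q * g = MvPolynomial.aeval w P) :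
    MvPolynomial.eval (c0 w) Q * ev g = MvPolynomial.eval (c0 w) P := by
  rw [← ev_aeval, ← ev_aeval, ← h]
  unfold ev
  rw [map_mul]

theorem dd_eq {s : ℕ} {w : Fin s → PS} {τ : Fin s → ℚ} (hτ : τ ∈ TT w) {g : PS}
    {P Q : MvPolynomial (Fin s) ℚ} (hQ : MvPolynomial.eval (c0 w) Q ≠ 0)
    (h : MvPolynomial.aeval w Q * g = MvPolynomial.aeval w P) :
    dd w τ g = (dt w τ P - ev g * dt w τ Q) / MvPolynomial.eval (c0 w) Q := by
  have h0 : ∃ P Q : MvPolynomial (Fin s) ℚ, MvPolynomial.eval (c0 w) Q ≠ 0 ∧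
    MvPolynomial.aeval w Q * g = MvPolynomial.aeval w P := ⟨P, Q, hQ, h⟩
  unfold dd
  rw [dif_pos h0]
  obtain ⟨hQ', h'⟩ := h0.choose_spec.choose_spec
  generalize h0.choose_spec.choose = Q' at *
  generalize h0.choose = P' at *
  have e1 := ev_rep h
  have e2 := ev_rep h'
  have e3 : dt w τ (Q' * P - Q * P') = 0 := by
    refine hτ _ ?_
    rw [map_sub, map_mul, map_mul, ← h, ← h']
    ring
  rw [dt_sub, dt_mul, dt_mul, ← e1, ← e2] at e3
  rw [div_eq_div_iff hQ' hQ]
  linear_combination (-1) * e3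

theorem t_TB : S_TB := by
  intro s w τ hτ
  refine ⟨dd w τ, ⟨?_, ?_, ?_⟩, ?_⟩
  · rintro g ⟨P, Q, hQ, h⟩ g' ⟨P', Q', hQ', h'⟩
    have hQQ : MvPolynomial.eval (c0 w) (Q * Q') ≠ 0 := by
      rw [map_mul]
      exact mul_ne_zero hQ hQ'
    have hh : MvPolynomial.aeval w (Q * Q') * (g + g') = MvPolynomial.aeval w (Q' * P + Q * P') := by
      rw [map_mul, map_add, map_mul, map_mul, ← h, ← h']
      ring
    have e1 := ev_rep h
    have e2 := ev_rep h'
    have e3 : ev (g + g') = ev g + ev g' := by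
      unfold ev
      rw [map_add]
    rw [dd_eq hτ hQQ hh, dd_eq hτ hQ h, dd_eq hτ hQ' h', dt_add, dt_mul, dt_mul, dt_mul, map_mul, e3,
      ← e1, ← e2]
    field_simp
    ring
  · rintro g ⟨P, Q, hQ, h⟩ g' ⟨P', Q', hQ', h'⟩
    have hQQ : MvPolynomial.eval (c0 w) (Q * Q') ≠ 0 := by
      rw [map_mul]
      exact mul_ne_zero hQ hQ'
    have hh : MvPolynomial.aeval w (Q * Q') * (g * g') = MvPolynomial.aeval w (P * P') := by
      rw [map_mul, map_mul, ← h, ← h']
      ring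
    have e1 := ev_rep h
    have e2 := ev_rep h'
    have e3 : ev (g * g') = ev g * ev g' := by
      unfold ev
      rw [map_mul]
    rw [dd_eq hτ hQQ hh, dd_eq hτ hQ h, dd_eq hτ hQ' h', dt_mul, dt_mul, map_mul, e3, ← e1, ← e2]
    field_simp
    ring
  · intro x
    have h1 : MvPolynomial.eval (c0 w) (1 : MvPolynomial (Fin s) ℚ) ≠ 0 := by
      rw [map_one]
      exact one_ne_zero
    have h2 : MvPolynomial.aeval w (1 : MvPolynomial (Fin s) ℚ) * PowerSeries.C x =
        MvPolynomial.aeval w (MvPolynomial.C x) := by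
      rw [map_one, one_mul, MvPolynomial.aeval_C]
      rfl
    rw [dd_eq hτ h1 h2, dt_C, dt_one]
    simp
  · intro i
    have h1 : MvPolynomial.eval (c0 w) (1 : MvPolynomial (Fin s) ℚ) ≠ 0 := by
      rw [map_one]
      exact one_ne_zero
    have h2 : MvPolynomial.aeval w (1 : MvPolynomial (Fin s) ℚ) * w i =
        MvPolynomial.aeval w (MvPolynomial.X i : MvPolynomial (Fin s) ℚ) := by
      rw [map_one, one_mul, MvPolynomial.aeval_X]
    rw [dd_eq hτ h1 h2, dt_X, dt_one, map_one]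
    simp

end Run7.h915.AD
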