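import Pool.Agent.Run7.h131.AD.Iface

/-!
# Project AD (helper131), piece ZZZ (helper915): numbers and polynomials integral at `p`
-/

set_option autoImplicit false

namespace Run7.h915.AD

open Run7.h131.AD

theorem zi_iff (p : ℕ) (x : ℚ) : ZI p x ↔ ¬ p ∣ x.den := by
  constructor
  · rintro ⟨a, b, hb, rfl⟩ h
    apply hb
    have h1 : (((a : ℚ) / (b : ℚ)).den : ℤ) ∣ b := by
      rw [← Rat.divInt_eq_div]
      exact Rat.den_dvd a b
    exact (Int.natCast_dvd_natCast.2 h).trans h1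
  · intro h
    refine ⟨x.num, x.den, fun h1 => h (Int.natCast_dvd_natCast.1 h1), ?_⟩
    exact_mod_cast (Rat.num_div_den x).symm

theorem ne_zero_of {p : ℕ} {b : ℤ} (hb : ¬ (p : ℤ) ∣ b) : (b : ℚ) ≠ 0 := by
  intro h
  apply hb
  have : b = 0 := by exact_mod_cast h
  rw [this]
  exact dvd_zero _

/-- the ring of the numbers integral at `p` -/
def Zr (p : ℕ) (hp : p.Prime) : Subring ℚ where
  carrier := {x | ZI p x}
  one_mem' := ⟨1, 1, fun h => hp.one_lt.ne' (by exact_mod_cast Int.natAbs_dvd_natAbs.2 h |> Nat.dvd_one.1), by norm_num⟩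
  zero_mem' := ⟨0, 1, fun h => hp.one_lt.ne' (by exact_mod_cast Int.natAbs_dvd_natAbs.2 h |> Nat.dvd_one.1), by norm_num⟩
  mul_mem' := by
    rintro x y ⟨a, b, hb, rfl⟩ ⟨c, d, hd, rfl⟩
    refine ⟨a * c, b * d, fun h => ?_, ?_⟩
    · rcases (Nat.prime_iff_prime_int.1 hp).dvd_or_dvd h with h | h
      · exact hb h
      · exact hd h
    · push_cast
      exact div_mul_div_comm _ _ _ _
  add_mem' := by
    rintro x y ⟨a, b, hb, rfl⟩ ⟨c, d, hd, rfl⟩
    refine ⟨a * d + b * c, b * d, fun h => ?_, ?_⟩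
    · rcases (Nat.prime_iff_prime_int.1 hp).dvd_or_dvd h with h | h
      · exact hb h
      · exact hd h
    · push_cast
      exact div_add_div _ _ (ne_zero_of hb) (ne_zero_of hd)
  neg_mem' := by
    rintro x ⟨a, b, hb, rfl⟩
    exact ⟨-a, b, hb, by push_cast; ring⟩

theorem mem_Zr {p : ℕ} {hp : p.Prime} {x : ℚ} : x ∈ Zr p hp ↔ ZI p x := Iff.rfl

theorem zi_inv_fac {p : ℕ} (hp : p.Prime) {k : ℕ} (hk : k < p) : ZI p ((k.factorial : ℚ)⁻¹) := by
  refine ⟨1, k.factorial, fun h => ?_, by push_cast; rw [one_div]⟩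
  have h1 : p ∣ k.factorial := by exact_mod_cast h
  rw [hp.dvd_factorial] at h1
  omega

theorem zi_large (x : ℚ) : ∀ p : ℕ, x.den + 1 ≤ p → p.Prime → ZI p x := by
  intro p hp _
  rw [zi_iff]
  intro h
  have := Nat.le_of_dvd x.den_pos h
  omega

theorem pi_monomial {p : ℕ} {σ : Type} (hp : p.Prime) (m : σ →₀ ℕ) (x : ℚ) (hx : ZI p x) :
    PI p (MvPolynomial.monomial m x) := by
  classical
  intro m'
  rw [MvPolynomial.coeff_monomial]
  split_ifs
  · exact hx
  · exact (Zr p hp).zero_mem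

/-- the ring of the polynomials with coefficients integral at `p` -/
noncomputable def Pr (p : ℕ) (hp : p.Prime) (σ : Type) : Subring (MvPolynomial σ ℚ) where
  carrier := {P | PI p P}
  one_mem' := by
    have := pi_monomial (σ := σ) hp 0 1 (Zr p hp).one_mem
    rwa [MvPolynomial.monomial_zero', MvPolynomial.C_1] at this
  zero_mem' := fun m => by
    rw [MvPolynomial.coeff_zero]
    exact (Zr p hp).zero_mem
  mul_mem' := by
    classical
    intro P Q hP hQ m
    rw [MvPolynomial.coeff_mul]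
    exact (Zr p hp).sum_mem fun x _ => (Zr p hp).mul_mem (hP _) (hQ _)
  add_mem' := by
    intro P Q hP hQ m
    rw [MvPolynomial.coeff_add]
    exact (Zr p hp).add_mem (hP _) (hQ _)
  neg_mem' := by
    intro P hP m
    rw [MvPolynomial.coeff_neg]
    exact (Zr p hp).neg_mem (hP _)

theorem mem_Pr {p : ℕ} {hp : p.Prime} {σ : Type} {P : MvPolynomial σ ℚ} : P ∈ Pr p hp σ ↔ PI p P :=
  Iff.rfl

theorem C_mem {p : ℕ} (hp : p.Prime) {σ : Type} {x : ℚ} (hx : ZI p x) :
    (MvPolynomial.C x : MvPolynomial σ ℚ) ∈ Pr p hp σ := by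
  have := pi_monomial (σ := σ) hp 0 x hx
  rwa [MvPolynomial.monomial_zero'] at this

theorem X_mem {p : ℕ} (hp : p.Prime) {σ : Type} (i : σ) :
    (MvPolynomial.X i : MvPolynomial σ ℚ) ∈ Pr p hp σ :=
  pi_monomial hp _ 1 (Zr p hp).one_mem

theorem t_ZZZ : S_ZZZ := by
  refine ⟨fun p hp => ⟨⟨Zr p hp, rfl⟩, fun h => ?_, fun k hk => zi_inv_fac hp hk, zi_iff p⟩,
    fun x => ⟨x.den + 1, zi_large x⟩, fun x hx => ⟨max (x.den + 1) (x⁻¹.den + 1), fun p hp hpp => ?_⟩,
    fun σ P => ⟨P.support.sup fun m => (MvPolynomial.coeff m P).den + 1, fun p hp hpp m => ?_⟩,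
    fun p σ hp => ⟨Pr p hp σ, rfl, fun x hx => C_mem hp hx, X_mem hp⟩,
    fun p σ P i hp hP => ?_, fun p σ τ P e hp hP he => ?_, fun p σ P c hp hP hc => ?_⟩
  · rw [zi_iff, Rat.inv_natCast_den_of_pos hp.pos] at h
    exact h dvd_rfl
  · exact ⟨hx, zi_large x p ((le_max_left _ _).trans hp) hpp,
      zi_large _ p ((le_max_right _ _).trans hp) hpp⟩
  · by_cases hm : m ∈ P.support
    · exact zi_large _ p ((Finset.le_sup (f := fun m => (MvPolynomial.coeff m P).den + 1) hm).trans hp) hpp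
    · rw [MvPolynomial.notMem_support_iff.1 hm]
      exact (Zr p hpp).zero_mem
  · have h1 : MvPolynomial.pderiv i P ∈ Pr p hp σ := by
      have h2 : P = ∑ m ∈ P.support, MvPolynomial.monomial m (MvPolynomial.coeff m P) :=
        P.as_sum
      rw [h2, map_sum]
      refine (Pr p hp σ).sum_mem fun m _ => ?_
      rw [MvPolynomial.pderiv_monomial]
      refine pi_monomial hp _ _ ((Zr p hp).mul_mem (hP m) ?_)
      exact natCast_mem (Zr p hp) _
    exact h1
  · have h1 : MvPolynomial.bind₁ e P ∈ Pr p hp τ := by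
      have h2 : P = ∑ m ∈ P.support, MvPolynomial.monomial m (MvPolynomial.coeff m P) :=
        P.as_sum
      rw [h2, map_sum]
      refine (Pr p hp τ).sum_mem fun m _ => ?_
      rw [MvPolynomial.bind₁_monomial]
      refine (Pr p hp τ).mul_mem (C_mem hp (hP m)) ?_
      exact (Pr p hp τ).prod_mem fun i _ => (Pr p hp τ).pow_mem (he i) _
    exact h1
  · have h1 : MvPolynomial.eval c P ∈ Zr p hp := by
      rw [MvPolynomial.eval_eq]
      refine (Zr p hp).sum_mem fun m _ => (Zr p hp).mul_mem (hP m) ?_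
      exact (Zr p hp).prod_mem fun i _ => (Zr p hp).pow_mem (hc i) _
    exact h1

end Run7.h915.AD
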